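import Pool.Agent.LibPO57.V
import Pool.Agent.LibPO57.LU

/-!
Independent sequences of Hoffman elements (MP_c2d7b4_nt), part A: ultrametric comparisons.
-/

set_option autoImplicit false

namespace Pool.Agent.IS

open Finset Pool.Agent.PO

variable {K : IntermediateField ℚ ℂ} {v : AbsoluteValue ℂ ℝ}

/-- A sum of small terms is small. -/
theorem sum_lt (hv : Ult v) {ι : Type*} (s : Finset ι) (f : ι → ℂ) {c : ℝ} (hc : 0 < c)
    (h : ∀ i ∈ s, v (f i) < c) : v (∑ i ∈ s, f i) < c := by
  classical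
  induction s using Finset.induction_on with
  | empty => simpa using hc
  | insert i s hi ih =>
    rw [Finset.sum_insert hi]
    refine (hv.add _ _).trans_lt (max_lt (h i (Finset.mem_insert_self i s)) (ih fun j hj => ?_))
    exact h j (Finset.mem_insert_of_mem hj)

/-- In a vanishing sum two nonzero terms have the same absolute value. -/
theorem exists_pair (hv : Ult v) {ι : Type*} (s : Finset ι) (f : ι → ℂ) (hs : ∃ i ∈ s, f i ≠ 0)
    (h0 : ∑ i ∈ s, f i = 0) :
    ∃ i ∈ s, ∃ j ∈ s, i ≠ j ∧ f i ≠ 0 ∧ f j ≠ 0 ∧ v (f i) = v (f j) := by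
  classical
  obtain ⟨i0, hi0, hf0⟩ := hs
  obtain ⟨i, hi, hmax⟩ := s.exists_max_image (fun i => v (f i)) ⟨i0, hi0⟩
  have hi1 : 0 < v (f i) := (v.pos hf0).trans_le (hmax i0 hi0)
  have hfi : f i ≠ 0 := fun h => by rw [h, map_zero] at hi1; exact lt_irrefl _ hi1
  by_contra hcon
  push Not at hcon
  have hlt : ∀ j ∈ s.erase i, v (f j) < v (f i) := by
    intro j hj
    have hjs := Finset.mem_of_mem_erase hj
    have hji := Finset.ne_of_mem_erase hj
    refine lt_of_le_of_ne (hmax j hjs) fun h => ?_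
    have hfj : f j ≠ 0 := fun h1 => by rw [h1, map_zero] at h; exact hi1.ne h
    exact hcon i hi j hjs hji.symm hfi hfj h.symm
  have h1 := sum_lt hv _ f hi1 hlt
  have h2 : f i = -∑ j ∈ s.erase i, f j := by
    rw [← Finset.add_sum_erase _ _ hi] at h0
    exact eq_neg_of_add_eq_zero_left h0
  rw [← AbsoluteValue.map_neg, ← h2] at h1
  exact lt_irrefl _ h1

/-- Numbers with different absolute values are linearly independent over a field where the absolute value is trivial. -/
theorem linInd (hv : Ult v) (hK : ∀ x : ℂ, x ∈ K → x ≠ 0 → v x = 1) {ι : Type*} (f : ι → ℂ)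
    (hf0 : ∀ i, f i ≠ 0) (hinj : ∀ i j, v (f i) = v (f j) → i = j) : LinearIndependent K f := by
  classical
  rw [linearIndependent_iff']
  intro s g hg i hi
  by_contra hgi
  have h1 : ∑ i ∈ s, (g i : ℂ) * f i = 0 := by
    rw [← hg]
    exact Finset.sum_congr rfl fun i _ => by rw [Algebra.smul_def]; rfl
  have hgC : ∀ j, g j ≠ 0 → (g j : ℂ) ≠ 0 := fun j h h' => h (Subtype.ext h')
  obtain ⟨j, -, k, -, hjk, hj, hk, he⟩ := exists_pair hv s (fun i => (g i : ℂ) * f i)
    ⟨i, hi, mul_ne_zero (hgC i hgi) (hf0 i)⟩ h1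
  rw [map_mul, map_mul, hK _ (g j).2 (left_ne_zero_of_mul hj), hK _ (g k).2 (left_ne_zero_of_mul hk),
    one_mul, one_mul] at he
  exact hjk (hinj j k he)

/-- An absolute value which is trivial on `K` takes on the nonzero vectors of a `K`-space at most as many values as the
dimension. -/
theorem exists_values (hv : Ult v) (hK : ∀ x : ℂ, x ∈ K → x ≠ 0 → v x = 1) (W : Submodule K ℂ)
    (hW : FiniteDimensional K W) :
    ∃ D : Finset ℝ, D.card ≤ Module.finrank K W ∧ (∀ γ ∈ D, 0 < γ) ∧ ∀ x ∈ W, x ≠ 0 → v x ∈ D := by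
  classical
  set T : Set ℝ := {γ | ∃ x ∈ W, x ≠ 0 ∧ v x = γ} with hT
  choose g hg using fun γ : T => γ.2
  have hli : LinearIndependent K (fun γ : T => (⟨g γ, (hg γ).1⟩ : W)) := by
    have h1 : LinearIndependent K (fun γ : T => g γ) := by
      refine linInd hv hK _ (fun γ => (hg γ).2.1) fun γ δ h => ?_
      rw [(hg γ).2.2, (hg δ).2.2] at h
      exact Subtype.ext h
    exact LinearIndependent.of_comp W.subtype h1
  haveI : Finite T := by
    by_contra hinf
    rw [not_finite_iff_infinite] at hinf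
    exact Module.Finite.not_linearIndependent_of_infinite (R := K) _ hli
  haveI := Fintype.ofFinite T
  refine ⟨T.toFinset, ?_, ?_, ?_⟩
  · rw [Set.toFinset_card]
    exact hli.fintype_card_le_finrank
  · intro γ hγ
    obtain ⟨x, -, hx0, hx⟩ := Set.mem_toFinset.1 hγ
    rw [← hx]
    exact v.pos hx0
  · intro x hx hx0
    exact Set.mem_toFinset.2 ⟨x, hx, hx0, rfl⟩

end Pool.Agent.IS
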