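import Pool.Agent.LibIS91.A
import Pool.Agent.LibHB89.E3
import Pool.Agent.LibHB89.G6
import Pool.Agent.LibHB89.C1a

/-!
Independent sequences of Hoffman elements, part B: the sequences.
-/

set_option autoImplicit false

namespace Pool.Agent.IS

open Finset Pool.Agent.PO
open Pool.HB89 (Hv Hv_relation Hv_ne_zero nfac nfac_ne_zero exists_even_relation)
open Pool.HB89.Stmt (zetaW word)

variable {v : AbsoluteValue ℂ ℝ}

theorem zeta_ne_zero {l : ℕ} (a : Fin (l + 1) → ℕ) : (zetaW (word a) : ℂ) ≠ 0 := by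
  rw [Pool.HB89.zetaW_eq, Pool.HB89.stmt_word_eq]
  exact Pool.HB89.mzv_word_ne_zero l a

theorem abs_Hv (hv : Ult v) {l : ℕ} (a : Fin (l + 1) → ℕ) : v (Hv l a) = v (zetaW (word a) : ℂ) := by
  rw [Pool.HB89.zetaW_eq, Pool.HB89.stmt_word_eq, Hv, map_mul, hv.nat _ (nfac_ne_zero l a), one_mul]

/-- One step: inserting between one and `2 ^ l` twos, the absolute value grows at least like the weight. -/
theorem exists_step (hv : Ult v) (hP : 1 < v (Real.pi : ℂ)) {l : ℕ} (a : Fin (l + 1) → ℕ) :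
    ∃ p : Fin (l + 1) → ℕ, 0 < ∑ i, p i ∧ ∑ i, p i ≤ 2 ^ l ∧
      v (Real.pi : ℂ) ^ (2 * ∑ i, p i) * v (zetaW (word a) : ℂ) ≤ v (zetaW (word (a + p)) : ℂ) := by
  classical
  obtain ⟨S, c, hS0, hc0, hSL, hrel⟩ := exists_even_relation l
  by_contra hcon
  push Not at hcon
  have hP0 : 0 < v (Real.pi : ℂ) := by linarith
  have hz0 : 0 < v (zetaW (word a) : ℂ) := v.pos (zeta_ne_zero a)
  have h1 := Hv_relation l S c (2 ^ l) hSL hrel a
  rw [← Finset.add_sum_erase _ _ hS0, hc0] at h1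
  have h7 : (∑ i, (0 : Fin (l + 1) → ℕ) i) = 0 := by simp
  rw [h7] at h1
  simp only [Nat.sub_zero, add_zero, Rat.cast_one, one_mul] at h1
  have hpos : 0 < v (((Real.pi : ℂ) ^ 2) ^ 2 ^ l * Hv l a) := by
    rw [map_mul, abs_Hv hv, map_pow, map_pow]
    positivity
  have h2 : v (∑ p ∈ S.erase 0, (c p : ℂ) * (((Real.pi : ℂ) ^ 2) ^ (2 ^ l - ∑ i, p i) * Hv l (a + p))) <
      v (((Real.pi : ℂ) ^ 2) ^ 2 ^ l * Hv l a) := by
    refine sum_lt hv _ _ hpos fun p hp => ?_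
    have hp0 : p ≠ 0 := Finset.ne_of_mem_erase hp
    have hpL := hSL p (Finset.mem_of_mem_erase hp)
    have hp1 : 0 < ∑ i, p i := by
      by_contra hcon
      apply hp0
      funext i
      have : p i ≤ ∑ j, p j := Finset.single_le_sum (fun _ _ => Nat.zero_le _) (Finset.mem_univ i)
      show p i = 0
      omega
    have h3 := hcon p hp1 hpL
    simp only [map_mul, map_pow, abs_Hv hv]
    have hcp : v (c p : ℂ) ≤ 1 := hv.rat_le (c p)
    have h4 : (v (Real.pi : ℂ) ^ 2) ^ 2 ^ l =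
        (v (Real.pi : ℂ) ^ 2) ^ (2 ^ l - ∑ i, p i) * v (Real.pi : ℂ) ^ (2 * ∑ i, p i) := by
      rw [← pow_mul, ← pow_mul, ← pow_add]
      congr 1
      omega
    calc v (c p : ℂ) * ((v (Real.pi : ℂ) ^ 2) ^ (2 ^ l - ∑ i, p i) * v (zetaW (word (a + p)) : ℂ))
        ≤ 1 * ((v (Real.pi : ℂ) ^ 2) ^ (2 ^ l - ∑ i, p i) * v (zetaW (word (a + p)) : ℂ)) :=
          mul_le_mul_of_nonneg_right hcp (by positivity)
      _ = (v (Real.pi : ℂ) ^ 2) ^ (2 ^ l - ∑ i, p i) * v (zetaW (word (a + p)) : ℂ) := one_mul _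
      _ < (v (Real.pi : ℂ) ^ 2) ^ (2 ^ l - ∑ i, p i) *
          (v (Real.pi : ℂ) ^ (2 * ∑ i, p i) * v (zetaW (word a) : ℂ)) :=
          mul_lt_mul_of_pos_left h3 (by positivity)
      _ = (v (Real.pi : ℂ) ^ 2) ^ 2 ^ l * v (zetaW (word a) : ℂ) := by rw [h4]; ring
  have h3 : ∑ p ∈ S.erase 0, (c p : ℂ) * (((Real.pi : ℂ) ^ 2) ^ (2 ^ l - ∑ i, p i) * Hv l (a + p)) =
      -(((Real.pi : ℂ) ^ 2) ^ 2 ^ l * Hv l a) := eq_neg_of_add_eq_zero_right h1
  rw [h3, AbsoluteValue.map_neg] at h2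
  exact lt_irrefl _ h2

theorem word_sum {l : ℕ} (a : Fin (l + 1) → ℕ) : (word a).sum = 2 * ∑ i, a i + 3 * l := by
  rw [Pool.HB89.stmt_word_eq]
  exact Pool.HB89.word_sum l a

/-- The sequences. -/
theorem exists_seq (hv : Ult v) (hP : 1 < v (Real.pi : ℂ)) :
    ∃ c : ∀ l : ℕ, (Fin (l + 1) → ℕ) → ℕ → (Fin (l + 1) → ℕ), ∀ l a, c l a 0 = a ∧ ∀ k,
      c l a k ≤ c l a (k + 1) ∧ ∑ i, c l a k i < ∑ i, c l a (k + 1) i ∧
        ∑ i, c l a (k + 1) i ≤ ∑ i, c l a k i + 2 ^ l ∧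
          v (Real.pi : ℂ) ^ ((word (c l a (k + 1))).sum - (word (c l a k)).sum) *
            v (zetaW (word (c l a k)) : ℂ) ≤ v (zetaW (word (c l a (k + 1))) : ℂ) := by
  choose p hp1 hp2 hp3 using fun (l : ℕ) (a : Fin (l + 1) → ℕ) => exists_step hv hP a
  refine ⟨fun l a k => (fun b => b + p l b)^[k] a, fun l a => ⟨rfl, fun k => ?_⟩⟩
  simp only [Function.iterate_succ_apply']
  set b := (fun b => b + p l b)^[k] a with hb
  have hsum : ∑ i, (b + p l b) i = ∑ i, b i + ∑ i, p l b i := by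
    simp only [Pi.add_apply]
    exact Finset.sum_add_distrib
  refine ⟨?_, ?_, ?_, ?_⟩
  · intro i
    show b i ≤ b i + p l b i
    omega
  · rw [hsum]
    have := hp1 l b
    omega
  · rw [hsum]
    have := hp2 l b
    omega
  · rw [word_sum, word_sum, hsum]
    have h1 : 2 * (∑ i, b i + ∑ i, p l b i) + 3 * l - (2 * ∑ i, b i + 3 * l) = 2 * ∑ i, p l b i := by
      omega
    rw [h1]
    exact hp3 l b

end Pool.Agent.IS
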