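import Pool.Agent.LibIS91.A

/-!
Independent sequences of Hoffman elements, part C: sequences whose absolute values grow.
-/

set_option autoImplicit false

namespace Pool.Agent.IS

open Finset Pool.Agent.PO

variable {K : IntermediateField ℚ ℂ} {v : AbsoluteValue ℂ ℝ}

/-- The growth condition, `w` are the weights. -/
structure Grow (v : AbsoluteValue ℂ ℝ) (w : ℕ → ℕ) (z : ℕ → ℂ) : Prop where
  ne : ∀ k, z k ≠ 0
  mono : StrictMono w
  le : ∀ k, v (Real.pi : ℂ) ^ (w (k + 1) - w k) * v (z k) ≤ v (z (k + 1))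

theorem Grow.pow {w : ℕ → ℕ} {z : ℕ → ℂ} (hz : Grow v w z) (hP : 1 < v (Real.pi : ℂ)) {k k' : ℕ} (h : k ≤ k') :
    v (Real.pi : ℂ) ^ (w k' - w k) * v (z k) ≤ v (z k') := by
  obtain ⟨n, rfl⟩ := Nat.exists_eq_add_of_le h
  induction n with
  | zero => simp
  | succ n ih =>
    have ih := ih (Nat.le_add_right _ _)
    refine le_trans ?_ (hz.le (k + n))
    have h1 : w k ≤ w (k + n) := hz.mono.monotone (Nat.le_add_right _ _)
    have h2 : w (k + n) ≤ w (k + n + 1) := hz.mono.monotone (Nat.le_succ _)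
    rw [show w (k + (n + 1)) - w k = (w (k + n + 1) - w (k + n)) + (w (k + n) - w k) by
      rw [show k + (n + 1) = k + n + 1 by ring]; omega, pow_add, mul_assoc]
    exact mul_le_mul_of_nonneg_left ih (by positivity)

theorem Grow.lt {w : ℕ → ℕ} {z : ℕ → ℂ} (hz : Grow v w z) (hP : 1 < v (Real.pi : ℂ)) {k k' : ℕ} (h : k < k') :
    v (z k) < v (z k') := by
  refine lt_of_lt_of_le ?_ (hz.pow hP h.le)
  have h1 := hz.mono h
  have h2 : 1 < v (Real.pi : ℂ) ^ (w k' - w k) := one_lt_pow₀ hP (by omega)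
  exact lt_mul_of_one_lt_left (v.pos (hz.ne k)) h2

theorem Grow.inj {w : ℕ → ℕ} {z : ℕ → ℂ} (hz : Grow v w z) (hP : 1 < v (Real.pi : ℂ)) {k k' : ℕ}
    (h : v (z k) = v (z k')) : k = k' := by
  rcases lt_trichotomy k k' with h1 | h1 | h1
  · exact absurd h (hz.lt hP h1).ne
  · exact h1
  · exact absurd h.symm (hz.lt hP h1).ne

/-- Part (1). -/
theorem Grow.linearIndependent {w : ℕ → ℕ} {z : ℕ → ℂ} (hz : Grow v w z) (hv : Ult v)
    (hP : 1 < v (Real.pi : ℂ)) (hK : ∀ x : ℂ, x ∈ K → x ≠ 0 → v x = 1) (φ : ℕ → ℕ) (hφ : StrictMono φ) :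
    LinearIndependent K (fun q : Σ i : ℕ, Fin (w (φ (i + 1)) - w (φ i)) =>
      (Real.pi : ℂ) ^ (q.2 : ℕ) * z (φ q.1)) := by
  have hP0 : 0 < v (Real.pi : ℂ) := by linarith
  have hπ : (Real.pi : ℂ) ≠ 0 := fun h => by rw [h, map_zero] at hP0; exact lt_irrefl _ hP0
  have key : ∀ (i i' : ℕ) (j : Fin (w (φ (i + 1)) - w (φ i))) (j' : Fin (w (φ (i' + 1)) - w (φ i'))), i < i' →
      v ((Real.pi : ℂ) ^ (j : ℕ) * z (φ i)) < v ((Real.pi : ℂ) ^ (j' : ℕ) * z (φ i')) := by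
    intro i i' j j' hi
    rw [map_mul, map_mul, map_pow, map_pow]
    have h1 := hz.pow hP (hφ (Nat.lt_succ_self i)).le
    have h2 : v (Real.pi : ℂ) ^ (j : ℕ) < v (Real.pi : ℂ) ^ (w (φ (i + 1)) - w (φ i)) :=
      pow_lt_pow_right₀ hP j.2
    have h3 : v (z (φ (i + 1))) ≤ v (z (φ i')) := by
      rcases Nat.lt_or_ge (i + 1) i' with h | h
      · exact (hz.lt hP (hφ h)).le
      · have : i' = i + 1 := by omega
        rw [this]
    calc v (Real.pi : ℂ) ^ (j : ℕ) * v (z (φ i))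
        < v (Real.pi : ℂ) ^ (w (φ (i + 1)) - w (φ i)) * v (z (φ i)) :=
          mul_lt_mul_of_pos_right h2 (v.pos (hz.ne _))
      _ ≤ v (z (φ (i + 1))) := h1
      _ ≤ v (z (φ i')) := h3
      _ ≤ v (Real.pi : ℂ) ^ (j' : ℕ) * v (z (φ i')) :=
          le_mul_of_one_le_left (v.nonneg _) (one_le_pow₀ hP.le)
  refine linInd hv hK _ (fun q => mul_ne_zero (pow_ne_zero _ hπ) (hz.ne _)) ?_
  rintro ⟨i, j⟩ ⟨i', j'⟩ h
  simp only at h
  rcases lt_trichotomy i i' with h1 | h1 | h1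
  · exact absurd h (key i i' j j' h1).ne
  · subst h1
    rw [map_mul, map_mul, map_pow, map_pow] at h
    have h2 := mul_right_cancel₀ (v.pos (hz.ne _)).ne' h
    have h3 := (pow_right_strictMono₀ hP).injective h2
    rw [Fin.ext h3]
  · exact absurd h.symm (key i' i j' j h1).ne

/-- The absolute value of a root of a polynomial. -/
theorem root_bounds (hv : Ult v) (U : Submodule K ℂ) {R : ℝ} (hR : 1 ≤ R)
    (hU : ∀ x ∈ U, x ≠ 0 → ∀ y ∈ U, y ≠ 0 → v x ≤ R * v y) (z : ℂ) (hz : z ≠ 0) (P : Polynomial ℂ)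
    (hP0 : P ≠ 0) (hPU : ∀ k, P.coeff k ∈ U) (hPz : P.eval z = 0) : v z ≤ R ∧ 1 ≤ R * v z := by
  have hsum : ∑ i ∈ P.support, P.coeff i * z ^ i = 0 := by
    rw [← hPz, Polynomial.eval_eq_sum, Polynomial.sum_def]
  obtain ⟨i0, hi0⟩ := Polynomial.support_nonempty.2 hP0
  obtain ⟨i, hi, j, hj, hij, -, -, he⟩ := exists_pair hv P.support (fun i => P.coeff i * z ^ i)
    ⟨i0, hi0, mul_ne_zero (Polynomial.mem_support_iff.1 hi0) (pow_ne_zero _ hz)⟩ hsum
  have hx : 0 < v z := v.pos hz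
  have key : ∀ i ∈ P.support, ∀ j ∈ P.support, i < j →
      v (P.coeff i * z ^ i) = v (P.coeff j * z ^ j) → v z ≤ R ∧ 1 ≤ R * v z := by
    intro i hi j hj hij he
    have hi0 := Polynomial.mem_support_iff.1 hi
    have hj0 := Polynomial.mem_support_iff.1 hj
    have h1 := hU _ (hPU i) hi0 _ (hPU j) hj0
    have h2 := hU _ (hPU j) hj0 _ (hPU i) hi0
    have hci : 0 < v (P.coeff i) := v.pos hi0
    have hcj : 0 < v (P.coeff j) := v.pos hj0
    have h3 : v (P.coeff i) = v (P.coeff j) * v z ^ (j - i) := by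
      rw [map_mul, map_mul, map_pow, map_pow] at he
      have h4 : v z ^ j = v z ^ (j - i) * v z ^ i := by
        rw [← pow_add]
        congr 1
        omega
      rw [h4, ← mul_assoc] at he
      exact mul_right_cancel₀ (pow_pos hx i).ne' he
    have hn : j - i ≠ 0 := by omega
    constructor
    · by_contra hcon
      push Not at hcon
      have h5 : v z ≤ v z ^ (j - i) := le_self_pow₀ (hR.trans hcon.le) hn
      rw [h3] at h1
      nlinarith
    · by_contra hcon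
      push Not at hcon
      have hlt1 : v z < 1 := by nlinarith
      have h5 : v z ^ (j - i) ≤ v z := pow_le_of_le_one hx.le hlt1.le hn
      rw [h3] at h2
      have h6 : R * (v (P.coeff j) * v z ^ (j - i)) ≤ R * (v (P.coeff j) * v z) := by
        gcongr
      nlinarith
  rcases lt_or_gt_of_ne hij with h | h
  · exact key i hi j hj h he
  · exact key j hj i hi h he.symm

/-- Members of moderate absolute values are close. -/
theorem Grow.close {w : ℕ → ℕ} {z : ℕ → ℂ} (hz : Grow v w z) (hP : 1 < v (Real.pi : ℂ)) {h h' k k' : ℕ}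
    (hk : k < k') (h1 : 1 ≤ v (Real.pi : ℂ) ^ h * v (z k)) (h2 : v (z k') ≤ v (Real.pi : ℂ) ^ h') :
    w k' ≤ w k + h + h' := by
  by_contra hcon
  push Not at hcon
  have h3 := hz.pow hP hk.le
  have hP0 : 0 < v (Real.pi : ℂ) := by linarith
  have h4 : v (Real.pi : ℂ) ^ (h' + h) < v (Real.pi : ℂ) ^ (w k' - w k) :=
    pow_lt_pow_right₀ hP (by omega)
  rw [pow_add] at h4
  have hx0 : 0 < v (z k) := v.pos (hz.ne k)
  have h5 : v (Real.pi : ℂ) ^ h' * v (Real.pi : ℂ) ^ h * v (z k) <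
      v (Real.pi : ℂ) ^ (w k' - w k) * v (z k) := mul_lt_mul_of_pos_right h4 hx0
  have h6 : v (Real.pi : ℂ) ^ h' * 1 ≤ v (Real.pi : ℂ) ^ h' * (v (Real.pi : ℂ) ^ h * v (z k)) :=
    mul_le_mul_of_nonneg_left h1 (by positivity)
  rw [← mul_assoc, mul_one] at h6
  linarith

/-- Few members of the sequence have moderate absolute values. -/
theorem Grow.encard_le {w : ℕ → ℕ} {z : ℕ → ℂ} (hz : Grow v w z) (hP : 1 < v (Real.pi : ℂ)) (h : ℕ)
    (T : Set ℕ) (hT : ∀ k ∈ T, v (z k) ≤ v (Real.pi : ℂ) ^ h ∧ 1 ≤ v (Real.pi : ℂ) ^ h * v (z k)) :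
    T.encard ≤ (2 * h + 1 : ℕ) := by
  classical
  by_cases hne : T.Nonempty
  · obtain ⟨k0, hk0, hmin⟩ : ∃ k0 ∈ T, ∀ k ∈ T, k0 ≤ k :=
      ⟨sInf T, Nat.sInf_mem hne, fun k hk => Nat.sInf_le hk⟩
    have hsub : T ⊆ (Finset.Icc k0 (k0 + 2 * h) : Finset ℕ) := by
      intro k hk
      rw [Finset.mem_coe, Finset.mem_Icc]
      have h1 := hmin k hk
      refine ⟨h1, ?_⟩
      rcases Nat.eq_or_lt_of_le h1 with h2 | h2
      · omega
      · have h3 := hz.close hP h2 (hT k0 hk0).2 (hT k hk).1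
        have h4 : w k0 + (k - k0) ≤ w k := by
          have := hz.mono.add_le_nat (k - k0) k0
          rw [show (k - k0) + k0 = k by omega] at this
          omega
        omega
    refine (Set.encard_le_encard hsub).trans ?_
    rw [Set.encard_coe_eq_coe_finsetCard, Nat.card_Icc]
    rw [show k0 + 2 * h + 1 - k0 = 2 * h + 1 by omega]
  · rw [Set.not_nonempty_iff_eq_empty.1 hne, Set.encard_empty]
    exact zero_le

/-- The absolute values of the polynomials in `π`. -/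
theorem span_pi_bounds (hv : Ult v) (hP : 1 < v (Real.pi : ℂ)) (hK : ∀ x : ℂ, x ∈ K → x ≠ 0 → v x = 1) (h : ℕ)
    (x : ℂ) (hx : x ∈ Submodule.span K (Set.range fun i : Fin (h + 1) => (Real.pi : ℂ) ^ (i : ℕ)))
    (hx0 : x ≠ 0) : 1 ≤ v x ∧ v x ≤ v (Real.pi : ℂ) ^ h := by
  classical
  obtain ⟨c, hc⟩ := (Submodule.mem_span_range_iff_exists_fun K).1 hx
  set f : Option (Fin (h + 1)) → ℂ := fun i => i.elim (-x) (fun i => (c i : ℂ) * (Real.pi : ℂ) ^ (i : ℕ)) with hf
  have hsum : ∑ i, f i = 0 := by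
    rw [Fintype.sum_option]
    simp only [hf, Option.elim]
    rw [← hc]
    rw [neg_add_eq_zero]
    exact Finset.sum_congr rfl fun i _ => by rw [Algebra.smul_def]; rfl
  have hfi : ∀ i : Fin (h + 1), f (some i) ≠ 0 → v (f (some i)) = v (Real.pi : ℂ) ^ (i : ℕ) := by
    intro i hi
    have h1 : (c i : ℂ) ≠ 0 := left_ne_zero_of_mul hi
    show v ((c i : ℂ) * (Real.pi : ℂ) ^ (i : ℕ)) = _
    rw [map_mul, map_pow, hK _ (c i).2 h1, one_mul]
  have hend : ∀ i : Fin (h + 1), v x = v (Real.pi : ℂ) ^ (i : ℕ) → 1 ≤ v x ∧ v x ≤ v (Real.pi : ℂ) ^ h := by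
    intro i hi
    rw [hi]
    exact ⟨one_le_pow₀ hP.le, pow_le_pow_right₀ hP.le (by have := i.2; omega)⟩
  obtain ⟨i, -, j, -, hij, hi, hj, he⟩ := exists_pair hv Finset.univ f
    ⟨none, Finset.mem_univ _, neg_ne_zero.2 hx0⟩ hsum
  have hn : v (f none) = v x := AbsoluteValue.map_neg v x
  rcases i with _ | i
  · rcases j with _ | j
    · exact absurd rfl hij
    · rw [hn, hfi j hj] at he
      exact hend j he
  · rcases j with _ | j
    · rw [hn, hfi i hi] at he
      exact hend i he.symm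
    · rw [hfi i hi, hfi j hj] at he
      have h3 := (pow_right_strictMono₀ hP).injective he
      exact absurd (congrArg some (Fin.ext h3)) hij

end Pool.Agent.IS
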