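import Pool.Agent.LibIS91.C

/-!
Independent sequences of Hoffman elements, part D: tuples.
-/

set_option autoImplicit false

namespace Pool.Agent.IS

open Finset Pool.Agent.PO

variable {K : IntermediateField ℚ ℂ} {v : AbsoluteValue ℂ ℝ}

/-- The solutions of one multiplicative equation in a box. -/
theorem card_solutions {s : ℕ} (x : Fin s → ℕ → ℝ) (hx0 : ∀ i k, 0 < x i k)
    (hxi : ∀ i, Function.Injective (x i)) (e f : Fin s → ℕ) (hef : e ≠ f) (γ δ : ℝ) (hγ : 0 < γ) (hδ : 0 < δ)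
    (M : ℕ) (A : Finset (Fin s → ℕ)) (hA : ∀ k ∈ A, (∀ i, k i < M) ∧
      γ * ∏ i, x i (k i) ^ e i = δ * ∏ i, x i (k i) ^ f i) :
    A.card ≤ M ^ (s - 1) := by
  classical
  obtain ⟨i, hi⟩ := Function.ne_iff.1 hef
  have h1 : A.card ≤ (Fintype.piFinset fun _ : {j : Fin s // j ≠ i} => Finset.range M).card := by
    refine Finset.card_le_card_of_injOn (fun k j => k j.1) ?_ ?_
    · intro k hk
      rw [Finset.mem_coe, Fintype.mem_piFinset]
      intro j
      exact Finset.mem_range.2 ((hA k hk).1 j.1)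
    · intro k hk k' hk' h
      have hoff : ∀ j, j ≠ i → k j = k' j := fun j hj => congrFun h ⟨j, hj⟩
      have hprod : ∀ g : Fin s → ℕ, ∏ j ∈ Finset.univ.erase i, x j (k j) ^ g j =
          ∏ j ∈ Finset.univ.erase i, x j (k' j) ^ g j := fun g =>
        Finset.prod_congr rfl fun j hj => by rw [hoff j (Finset.ne_of_mem_erase hj)]
      have e1 := (hA k hk).2
      have e2 := (hA k' hk').2
      rw [← Finset.mul_prod_erase Finset.univ _ (Finset.mem_univ i),
        ← Finset.mul_prod_erase Finset.univ (fun j => x j (k j) ^ f j) (Finset.mem_univ i)] at e1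
      rw [← Finset.mul_prod_erase Finset.univ _ (Finset.mem_univ i),
        ← Finset.mul_prod_erase Finset.univ (fun j => x j (k' j) ^ f j) (Finset.mem_univ i),
        ← hprod e, ← hprod f] at e2
      have hE : 0 < ∏ j ∈ Finset.univ.erase i, x j (k j) ^ e j :=
        Finset.prod_pos fun j _ => pow_pos (hx0 _ _) _
      have hF : 0 < ∏ j ∈ Finset.univ.erase i, x j (k j) ^ f j :=
        Finset.prod_pos fun j _ => pow_pos (hx0 _ _) _
      set PE := ∏ j ∈ Finset.univ.erase i, x j (k j) ^ e j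
      set PF := ∏ j ∈ Finset.univ.erase i, x j (k j) ^ f j
      have ha := hx0 i (k i)
      have hb := hx0 i (k' i)
      have hki : k i = k' i := by
        apply hxi i
        rcases lt_or_gt_of_ne hi with hlt | hlt
        · have ea : ∀ y : ℝ, 0 < y → γ * (y ^ e i * PE) = δ * (y ^ f i * PF) →
              y ^ (f i - e i) = γ * PE / (δ * PF) := by
            intro y hy h
            have h2 : y ^ f i = y ^ (f i - e i) * y ^ e i := by
              rw [← pow_add]; congr 1; omega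
            rw [h2] at h
            have h3 : 0 < y ^ e i := pow_pos hy _
            rw [eq_div_iff (by positivity)]
            apply mul_right_cancel₀ h3.ne'
            linarith
          exact (pow_left_inj₀ ha.le hb.le (by omega)).1 ((ea _ ha e1).trans (ea _ hb e2).symm)
        · have ea : ∀ y : ℝ, 0 < y → γ * (y ^ e i * PE) = δ * (y ^ f i * PF) →
              y ^ (e i - f i) = δ * PF / (γ * PE) := by
            intro y hy h
            have h2 : y ^ e i = y ^ (e i - f i) * y ^ f i := by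
              rw [← pow_add]; congr 1; omega
            rw [h2] at h
            have h3 : 0 < y ^ f i := pow_pos hy _
            rw [eq_div_iff (by positivity)]
            apply mul_right_cancel₀ h3.ne'
            linarith
          exact (pow_left_inj₀ ha.le hb.le (by omega)).1 ((ea _ ha e1).trans (ea _ hb e2).symm)
      funext j
      by_cases hj : j = i
      · rw [hj]; exact hki
      · exact hoff j hj
  refine h1.trans (le_of_eq ?_)
  rw [Fintype.card_piFinset]
  simp [Fintype.card_subtype_compl]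

/-- Part (3). -/
theorem tuples (hv : Ult v) (hP : 1 < v (Real.pi : ℂ)) (hK : ∀ x : ℂ, x ∈ K → x ≠ 0 → v x = 1) (s : ℕ)
    (w : Fin s → ℕ → ℕ) (z : Fin s → ℕ → ℂ) (hz : ∀ i, Grow v (w i) (z i)) (E : Finset (Fin s →₀ ℕ))
    (W : (Fin s →₀ ℕ) → Submodule K ℂ) (hW : ∀ e ∈ E, FiniteDimensional K (W e)) (M : ℕ) :
    2 * {k : Fin s → ℕ | (∀ i, k i < M) ∧ ∃ P : MvPolynomial (Fin s) ℂ, P ≠ 0 ∧ P.support ⊆ E ∧
        (∀ e ∈ E, P.coeff e ∈ W e) ∧ MvPolynomial.eval (fun i => z i (k i)) P = 0}.ncard ≤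
      M ^ (s - 1) * ∑ p ∈ E.offDiag, Module.finrank K (W p.1) * Module.finrank K (W p.2) := by
  classical
  have hD : ∀ e : Fin s →₀ ℕ, ∃ D : Finset ℝ, (e ∈ E → D.card ≤ Module.finrank K (W e)) ∧ (∀ γ ∈ D, 0 < γ) ∧
      (e ∈ E → ∀ x ∈ W e, x ≠ 0 → v x ∈ D) := by
    intro e
    by_cases he : e ∈ E
    · obtain ⟨D, h1, h2, h3⟩ := exists_values hv hK (W e) (hW e he)
      exact ⟨D, fun _ => h1, h2, fun _ => h3⟩
    · exact ⟨∅, fun h => absurd h he, fun γ hγ => absurd hγ (Finset.notMem_empty _), fun h => absurd h he⟩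
  choose D hD1 hD2 hD3 using hD
  set x : Fin s → ℕ → ℝ := fun i k => v (z i k) with hx
  have hx0 : ∀ i k, 0 < x i k := fun i k => v.pos ((hz i).ne k)
  have hxi : ∀ i, Function.Injective (x i) := fun i k k' h => (hz i).inj hP h
  set T : Finset (Σ _ : (Fin s →₀ ℕ) × (Fin s →₀ ℕ), ℝ × ℝ) := E.offDiag.sigma fun p => D p.1 ×ˢ D p.2 with hT
  set box : Finset (Fin s → ℕ) := Fintype.piFinset fun _ => Finset.range M with hbox
  set sol : (Σ _ : (Fin s →₀ ℕ) × (Fin s →₀ ℕ), ℝ × ℝ) → (Fin s → ℕ) → Prop := fun t k =>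
    t.2.1 * ∏ i, x i (k i) ^ t.1.1 i = t.2.2 * ∏ i, x i (k i) ^ t.1.2 i with hsol
  set B : Set (Fin s → ℕ) := {k : Fin s → ℕ | (∀ i, k i < M) ∧ ∃ P : MvPolynomial (Fin s) ℂ, P ≠ 0 ∧
    P.support ⊆ E ∧ (∀ e ∈ E, P.coeff e ∈ W e) ∧ MvPolynomial.eval (fun i => z i (k i)) P = 0} with hB
  have hBbox : B ⊆ (box : Set (Fin s → ℕ)) := by
    intro k hk
    rw [Finset.mem_coe, hbox, Fintype.mem_piFinset]
    exact fun i => Finset.mem_range.2 (hk.1 i)
  have hBf : B.Finite := (Finset.finite_toSet box).subset hBbox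
  -- every bad tuple has two solutions
  have htwo : ∀ k ∈ B, 2 ≤ (T.filter fun t => sol t k).card := by
    rintro k ⟨-, P, hP0, hPE, hPW, hPz⟩
    have hsum : ∑ e ∈ P.support, P.coeff e * ∏ i, z i (k i) ^ e i = 0 := by
      rw [← hPz, MvPolynomial.eval_eq']
    obtain ⟨e0, he0⟩ := MvPolynomial.support_nonempty.2 hP0
    have hm0 : ∀ e : Fin s →₀ ℕ, ∏ i, z i (k i) ^ e i ≠ 0 := fun e =>
      Finset.prod_ne_zero_iff.2 fun i _ => pow_ne_zero _ ((hz i).ne _)
    obtain ⟨e, he, f, hf, hef, -, -, heq⟩ := exists_pair hv P.support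
      (fun e => P.coeff e * ∏ i, z i (k i) ^ e i)
      ⟨e0, he0, mul_ne_zero (MvPolynomial.mem_support_iff.1 he0) (hm0 e0)⟩ hsum
    have hv1 : ∀ e : Fin s →₀ ℕ, v (P.coeff e * ∏ i, z i (k i) ^ e i) =
        v (P.coeff e) * ∏ i, x i (k i) ^ e i := by
      intro e
      rw [map_mul, map_prod]
      simp only [map_pow, hx]
    rw [hv1, hv1] at heq
    have heE := hPE he
    have hfE := hPE hf
    have hγ := hD3 e heE _ (hPW e heE) (MvPolynomial.mem_support_iff.1 he)
    have hδ := hD3 f hfE _ (hPW f hfE) (MvPolynomial.mem_support_iff.1 hf)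
    set t1 : Σ _ : (Fin s →₀ ℕ) × (Fin s →₀ ℕ), ℝ × ℝ := ⟨(e, f), (v (P.coeff e), v (P.coeff f))⟩ with ht1
    set t2 : Σ _ : (Fin s →₀ ℕ) × (Fin s →₀ ℕ), ℝ × ℝ := ⟨(f, e), (v (P.coeff f), v (P.coeff e))⟩ with ht2
    have h12 : t1 ≠ t2 := by
      intro h
      apply hef
      have := congrArg (fun t => t.1.1) h
      exact this
    have hsub : {t1, t2} ⊆ T.filter fun t => sol t k := by
      intro t ht
      rw [Finset.mem_insert, Finset.mem_singleton] at ht
      rw [Finset.mem_filter, hT, Finset.mem_sigma, Finset.mem_offDiag, Finset.mem_product]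
      rcases ht with rfl | rfl
      · exact ⟨⟨⟨heE, hfE, hef⟩, hγ, hδ⟩, heq⟩
      · exact ⟨⟨⟨hfE, heE, hef.symm⟩, hδ, hγ⟩, heq.symm⟩
    calc 2 = ({t1, t2} : Finset _).card := (Finset.card_pair h12).symm
      _ ≤ _ := Finset.card_le_card hsub
  -- every equation has few solutions
  have hfew : ∀ t ∈ T, (box.filter fun k => sol t k).card ≤ M ^ (s - 1) := by
    intro t ht
    rw [hT, Finset.mem_sigma, Finset.mem_offDiag, Finset.mem_product] at ht
    refine card_solutions x hx0 hxi (fun i => t.1.1 i) (fun i => t.1.2 i) ?_ t.2.1 t.2.2 (hD2 _ _ ht.2.1)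
      (hD2 _ _ ht.2.2) M _ ?_
    · intro h
      exact ht.1.2.2 (Finsupp.ext fun i => congrFun h i)
    · intro k hk
      rw [Finset.mem_filter, hbox, Fintype.mem_piFinset] at hk
      exact ⟨fun i => Finset.mem_range.1 (hk.1 i), hk.2⟩
  have hTcard : T.card ≤ ∑ p ∈ E.offDiag, Module.finrank K (W p.1) * Module.finrank K (W p.2) := by
    rw [hT, Finset.card_sigma]
    refine Finset.sum_le_sum fun p hp => ?_
    rw [Finset.mem_offDiag] at hp
    rw [Finset.card_product]
    exact Nat.mul_le_mul (hD1 _ hp.1) (hD1 _ hp.2.1)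
  calc 2 * B.ncard = ∑ _k ∈ hBf.toFinset, 2 := by
        rw [Finset.sum_const, smul_eq_mul, Set.ncard_eq_toFinset_card B hBf, mul_comm]
    _ ≤ ∑ k ∈ hBf.toFinset, (T.filter fun t => sol t k).card :=
        Finset.sum_le_sum fun k hk => htwo k ((Set.Finite.mem_toFinset hBf).1 hk)
    _ ≤ ∑ k ∈ box, (T.filter fun t => sol t k).card :=
        Finset.sum_le_sum_of_subset fun k hk => hBbox ((Set.Finite.mem_toFinset hBf).1 hk)
    _ = ∑ t ∈ T, (box.filter fun k => sol t k).card := by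
        simp only [Finset.card_filter]
        exact Finset.sum_comm
    _ ≤ ∑ _t ∈ T, M ^ (s - 1) := Finset.sum_le_sum hfew
    _ = M ^ (s - 1) * T.card := by rw [Finset.sum_const, smul_eq_mul, mul_comm]
    _ ≤ _ := Nat.mul_le_mul_left _ hTcard

end Pool.Agent.IS
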